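import Pool.Agent.Y924.EL.Stm

/-! # The codes of the sentences are an elementary function (project EL of helper924) -/

set_option autoImplicit false

namespace Pool.Agent.Y924.EL

theorem e3_id : E3 fun n => n := by
  have h := E3.pair E3.left E3.right
  simpa only [Nat.pair_unpair] using h

theorem e3_const (c : ℕ) : E3 fun _ => c := by
  induction c with
  | zero => exact E3.zero
  | succ c ih => exact E3.comp (f := fun n => n + 1) (g := fun _ => c) E3.succ ih

theorem e3_add (A : ℕ) : E3 fun w => w + A := by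
  induction A with
  | zero => exact e3_id
  | succ A ih => exact E3.comp (f := fun n => n + 1) (g := fun w => w + A) E3.succ ih

/-! ## Codes -/

theorem comp5_st (h : Fin 5 → Fm) (i : Fin 5) : comp5 i (st h) = (h i).code := by
  fin_cases i <;> simp [comp5, st]

theorem code_inst (h : Fin 5 → Fm) (τ : Tp) : (τ.inst h).code = τ.cd (st h) := by
  induction τ with
  | hole i => exact (comp5_st h i).symm
  | atom φ => rfl
  | neg τ ih => simp only [Tp.inst, Fm.code, Tp.cd, ih]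
  | and τ υ ih1 ih2 => simp only [Tp.inst, Fm.code, Tp.cd, ih1, ih2]
  | ex i τ ih => simp only [Tp.inst, Fm.code, Tp.cd, ih]

theorem st_stepH (T : Fin 5 → Tp) (h : Fin 5 → Fm) : st (stepH T h) = cdT T (st h) := by
  simp only [st, stepH, cdT, code_inst]

theorem st_iter (T : Fin 5 → Tp) (m : ℕ) (h : Fin 5 → Fm) :
    st ((stepH T)^[m] h) = (cdT T)^[m] (st h) := by
  have h1 : Function.Semiconj st (stepH T) (cdT T) := fun h => st_stepH T h
  exact (h1.iterate_right m).eq h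

theorem t_CODEEQ : S_CODEEQ := by
  intro p m
  simp only [sent, codeOf, hfin, code_inst, st_iter, st_stepH]

/-! ## Signum -/

theorem t_SG : S_SG := by
  intro f hf
  have h1 : E3 (recF (fun _ => 1) fun _ => 0) := by
    refine E3.limrec (e3_const 1) (e3_const 0) (e3_const 1) fun n => ?_
    unfold recF
    cases n.unpair.2 <;> simp
  have h2 := E3.comp (f := recF (fun _ => 1) fun _ => 0) (g := fun n => Nat.pair 0 (f n)) h1
    (E3.pair (e3_const 0) hf)
  have h3 : (fun n => recF (fun _ => 1) (fun _ => 0) (Nat.pair 0 (f n))) =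
      fun n => if f n = 0 then 1 else 0 := by
    funext n
    unfold recF
    rw [Nat.unpair_pair]
    cases f n <;> simp
  rwa [h3] at h2

/-! ## Polynomially bounded functions and iteration -/

/-- polynomially bounded -/
def Pb (f : ℕ → ℕ) : Prop := ∃ K : ℕ, ∀ s, f s + 2 ≤ (s + 2) ^ K

theorem pb_const (c : ℕ) : Pb fun _ => c := by
  refine ⟨c + 2, fun s => ?_⟩
  calc c + 2 ≤ 2 ^ (c + 2) := (Nat.lt_two_pow_self).le
    _ ≤ (s + 2) ^ (c + 2) := Nat.pow_le_pow_left (by omega) _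

theorem pb_of_le {f : ℕ → ℕ} (h : ∀ s, f s ≤ s) : Pb f :=
  ⟨1, fun s => by rw [pow_one]; exact Nat.add_le_add_right (h s) 2⟩

theorem pb_pair {f g : ℕ → ℕ} (hf : Pb f) (hg : Pb g) : Pb fun s => Nat.pair (f s) (g s) := by
  obtain ⟨K1, h1⟩ := hf
  obtain ⟨K2, h2⟩ := hg
  refine ⟨(K1 + K2) * 2, fun s => ?_⟩
  have h3 : f s + 2 ≤ (s + 2) ^ (K1 + K2) :=
    (h1 s).trans (Nat.pow_le_pow_right (by omega) (by omega))
  have h4 : g s + 2 ≤ (s + 2) ^ (K1 + K2) :=
    (h2 s).trans (Nat.pow_le_pow_right (by omega) (by omega))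
  have h5 := Nat.pair_lt_max_add_one_sq (f s) (g s)
  have h6 : max (f s) (g s) + 2 ≤ (s + 2) ^ (K1 + K2) := by
    rcases max_choice (f s) (g s) with h | h <;> rw [h] <;> assumption
  rw [pow_mul]
  have h7 : (max (f s) (g s) + 2) ^ 2 ≤ ((s + 2) ^ (K1 + K2)) ^ 2 := Nat.pow_le_pow_left h6 2
  show Nat.pair (f s) (g s) + 2 ≤ _
  generalize Nat.pair (f s) (g s) = a at *
  generalize max (f s) (g s) = b at *
  generalize ((s + 2) ^ (K1 + K2)) ^ 2 = c at *
  nlinarith

theorem comp5_le (i : Fin 5) (s : ℕ) : comp5 i s ≤ s := by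
  have h1 := fun n => Nat.unpair_left_le n
  have h2 := fun n => Nat.unpair_right_le n
  fin_cases i <;> simp only [comp5]
  · exact h1 s
  · exact (h1 _).trans (h2 _)
  · exact (h1 _).trans ((h2 _).trans (h2 _))
  · exact (h1 _).trans ((h2 _).trans ((h2 _).trans (h2 _)))
  · exact (h2 _).trans ((h2 _).trans ((h2 _).trans (h2 _)))

theorem e3_comp5 (i : Fin 5) : E3 (comp5 i) := by
  have h1 : E3 fun s => s.unpair.2.unpair.1 :=
    E3.comp (f := fun n => n.unpair.1) (g := fun n => n.unpair.2) E3.left E3.right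
  have h2 : E3 fun s => s.unpair.2.unpair.2 :=
    E3.comp (f := fun n => n.unpair.2) (g := fun n => n.unpair.2) E3.right E3.right
  have h3 : E3 fun s => s.unpair.2.unpair.2.unpair.1 :=
    E3.comp (f := fun n => n.unpair.1) (g := fun n => n.unpair.2.unpair.2) E3.left h2
  have h4 : E3 fun s => s.unpair.2.unpair.2.unpair.2 :=
    E3.comp (f := fun n => n.unpair.2) (g := fun n => n.unpair.2.unpair.2) E3.right h2
  have h5 : E3 fun s => s.unpair.2.unpair.2.unpair.2.unpair.1 :=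
    E3.comp (f := fun n => n.unpair.1) (g := fun n => n.unpair.2.unpair.2.unpair.2) E3.left h4
  have h6 : E3 fun s => s.unpair.2.unpair.2.unpair.2.unpair.2 :=
    E3.comp (f := fun n => n.unpair.2) (g := fun n => n.unpair.2.unpair.2.unpair.2) E3.right h4
  match i with
  | 0 => exact E3.left
  | 1 => exact h1
  | 2 => exact h3
  | 3 => exact h5
  | 4 => exact h6

theorem good_cd (τ : Tp) : E3 τ.cd ∧ Pb τ.cd := by
  induction τ with
  | hole i => exact ⟨e3_comp5 i, pb_of_le (comp5_le i)⟩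
  | atom φ => exact ⟨e3_const _, pb_const _⟩
  | neg τ ih => exact ⟨E3.pair (e3_const 5) ih.1, pb_pair (pb_const 5) ih.2⟩
  | and τ υ ih1 ih2 =>
    exact ⟨E3.pair (e3_const 6) (E3.pair ih1.1 ih2.1), pb_pair (pb_const 6) (pb_pair ih1.2 ih2.2)⟩
  | ex i τ ih =>
    exact ⟨E3.pair (e3_const 7) (E3.pair (e3_const i) ih.1),
      pb_pair (pb_const 7) (pb_pair (pb_const i) ih.2)⟩

theorem good_cdT (T : Fin 5 → Tp) : E3 (cdT T) ∧ Pb (cdT T) :=
  ⟨E3.pair (good_cd _).1 (E3.pair (good_cd _).1 (E3.pair (good_cd _).1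
    (E3.pair (good_cd _).1 (good_cd _).1))),
   pb_pair (good_cd _).2 (pb_pair (good_cd _).2 (pb_pair (good_cd _).2
    (pb_pair (good_cd _).2 (good_cd _).2)))⟩

theorem iter_bound {T : ℕ → ℕ} {K : ℕ} (hT : ∀ s, T s + 2 ≤ (s + 2) ^ K) (n z : ℕ) :
    T^[n] z + 2 ≤ (z + 2) ^ (K ^ n) := by
  induction n with
  | zero => simp
  | succ n ih =>
    rw [Function.iterate_succ_apply']
    calc T (T^[n] z) + 2 ≤ (T^[n] z + 2) ^ K := hT _
      _ ≤ ((z + 2) ^ (K ^ n)) ^ K := Nat.pow_le_pow_left ih K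
      _ = (z + 2) ^ (K ^ (n + 1)) := by rw [← pow_mul, pow_succ]

theorem e3_iter {T s0 : ℕ → ℕ} (hT : E3 T) (hT2 : Pb T) (hs : E3 s0) :
    E3 fun n => T^[n] (s0 n) := by
  obtain ⟨K, hK⟩ := hT2
  set g : ℕ → ℕ := fun w => T w.unpair.2.unpair.2 with hg
  have hrec : ∀ z n, recF (fun n => n) g (Nat.pair z n) = T^[n] z := by
    intro z n
    unfold recF
    rw [Nat.unpair_pair]
    simp only
    induction n with
    | zero => rfl
    | succ n ih =>
      rw [Function.iterate_succ_apply', ← ih]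
      simp only [hg, Nat.unpair_pair]
  have h1 : E3 (recF (fun n => n) g) := by
    have hg1 : E3 g := E3.comp (f := T) (g := fun n => n.unpair.2.unpair.2) hT
      (E3.comp (f := fun n => n.unpair.2) (g := fun n => n.unpair.2) E3.right E3.right)
    have hb1 : E3 fun w => 2 ^ (w + (K + 2)) :=
      E3.comp (f := fun n => 2 ^ n) (g := fun w => w + (K + 2)) E3.pow (e3_add (K + 2))
    have hb2 : E3 fun w => 2 ^ (2 ^ (w + (K + 2))) :=
      E3.comp (f := fun n => 2 ^ n) (g := fun w => 2 ^ (w + (K + 2))) E3.pow hb1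
    have hb3 : E3 fun w => 2 ^ (2 ^ (2 ^ (w + (K + 2)))) :=
      E3.comp (f := fun n => 2 ^ n) (g := fun w => 2 ^ (2 ^ (w + (K + 2)))) E3.pow hb2
    refine E3.limrec (b := fun w => 2 ^ (2 ^ (2 ^ (w + (K + 2))))) e3_id hg1 hb3 fun w => ?_
    have h2 := hrec w.unpair.1 w.unpair.2
    rw [Nat.pair_unpair] at h2
    rw [h2]
    have h3 := iter_bound hK w.unpair.2 w.unpair.1
    have hz := Nat.unpair_left_le w
    have hn := Nat.unpair_right_le w
    have h4 : w.unpair.1 + 2 ≤ 2 ^ (w + 2) :=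
      (Nat.lt_two_pow_self).le.trans (Nat.pow_le_pow_right (by omega) (by omega))
    have h5 : K ^ w.unpair.2 ≤ 2 ^ (K * w) := by
      calc K ^ w.unpair.2 ≤ (2 ^ K) ^ w.unpair.2 :=
            Nat.pow_le_pow_left (Nat.lt_two_pow_self).le _
        _ = 2 ^ (K * w.unpair.2) := by rw [← pow_mul]
        _ ≤ 2 ^ (K * w) := Nat.pow_le_pow_right (by omega) (Nat.mul_le_mul_left K hn)
    have h6 : (w + 2) * 2 ^ (K * w) ≤ 2 ^ (2 ^ (w + (K + 2))) := by
      have h7 : w + 2 ≤ 2 ^ (w + 2) := (Nat.lt_two_pow_self).le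
      calc (w + 2) * 2 ^ (K * w) ≤ 2 ^ (w + 2) * 2 ^ (K * w) := Nat.mul_le_mul_right _ h7
        _ = 2 ^ (w + 2 + K * w) := by rw [← pow_add]
        _ ≤ 2 ^ (2 ^ (w + (K + 2))) := by
          apply Nat.pow_le_pow_right (by omega)
          have h8 : w + 1 ≤ 2 ^ w := Nat.lt_two_pow_self
          have h9 : K + 3 ≤ 2 ^ (K + 2) := Nat.lt_two_pow_self
          rw [pow_add]
          calc w + 2 + K * w ≤ (w + 1) * (K + 3) := by nlinarith
            _ ≤ 2 ^ w * 2 ^ (K + 2) := Nat.mul_le_mul h8 h9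
    calc T^[w.unpair.2] w.unpair.1 ≤ (w.unpair.1 + 2) ^ (K ^ w.unpair.2) := by omega
      _ ≤ (2 ^ (w + 2)) ^ (K ^ w.unpair.2) := Nat.pow_le_pow_left h4 _
      _ = 2 ^ ((w + 2) * K ^ w.unpair.2) := by rw [← pow_mul]
      _ ≤ 2 ^ ((w + 2) * 2 ^ (K * w)) :=
        Nat.pow_le_pow_right (by omega) (Nat.mul_le_mul_left _ h5)
      _ ≤ 2 ^ (2 ^ (2 ^ (w + (K + 2)))) := Nat.pow_le_pow_right (by omega) h6
  have h2 := E3.comp (f := recF (fun n => n) g) (g := fun n => Nat.pair (s0 n) n) h1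
    (E3.pair hs e3_id)
  simpa only [hrec] using h2

theorem t_CODE : S_CODE := by
  intro p
  have h1 := e3_iter (good_cdT (TL p)).1 (good_cdT (TL p)).2 (e3_const (st (h0 p)))
  have h2 := E3.comp (f := cdT TA0) (g := fun n => (cdT (TL p))^[n] (st (h0 p)))
    (good_cdT TA0).1 h1
  have h3 := e3_iter (good_cdT TA1).1 (good_cdT TA1).2 h2
  exact E3.comp (f := (Tp.Fin1 p).cd)
    (g := fun n => (cdT TA1)^[n] (cdT TA0 ((cdT (TL p))^[n] (st (h0 p)))))
    (good_cd (Tp.Fin1 p)).1 h3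

end Pool.Agent.Y924.EL
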